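import Pool.Agent.Y245.LR.Stm
import Pool.Agent.TH298.AN.MODE
import Pool.Agent.TH298.AN.MODE01
import Pool.Agent.TH298.AN.ODEM
import Pool.Agent.TH298.AN.Pars2

/-!
# Project LR: compactness (S_LRF)
-/

set_option autoImplicit false

open MeasureTheory Metric Set
open Pool.Agent.TH298.Sch (Sol)
open TH259.NS (J)
open Pool.Agent.Y245.SG (Bn)

namespace Pool.Agent.Y473.LR

open Pool.Agent.Y245.LR

/-- The conclusion holds for all domains between the discs of the window `[t0 - η, t0 + η]`. -/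
def Win (t0 η : ℝ) : Prop :=
  ∀ (Ω : Set ℂ) (lam c a b : ℝ) (q : ℂ) (u : ℂ → ℝ) (G : ℂ → ℂ), IsOpen Ω →
    Bornology.IsBounded Ω → Ω.Nonempty → IsPreconnected Ωᶜ → interior (closure Ω) = Ω →
    volume (frontier Ω) = 0 → 0 < lam → 0 ≤ a →
    ball q a ⊆ Ω → Ω ⊆ closedBall q b → t0 - η ≤ √lam * a → √lam * b ≤ t0 + η →
    Sol Ω lam c u G → ¬ (u =ᵐ[volume.restrict Ω] 0) →
    ∃ (p : ℂ) (r' : ℝ), 0 < r' ∧ Ω = ball p r' ∧ J 1 (√lam * r') = 0

theorem main' {Ω : Set ℂ} {lam c : ℝ} {u : ℂ → ℝ} {G : ℂ → ℂ} (ho : IsOpen Ω)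
    (hb : Bornology.IsBounded Ω) (hne : Ω.Nonempty)
    (hco : IsPreconnected Ωᶜ) (hint : interior (closure Ω) = Ω) (hfr : volume (frontier Ω) = 0)
    (hlam : 0 < lam) {q : ℂ} {a R : ℝ} (ha : 0 ≤ a) (hin : ball q a ⊆ Ω)
    (hR : Ω ⊆ closedBall q R)
    (hJ : ∀ n : ℕ, 2 ≤ n → ∀ t, 0 < t → √lam * a ≤ t → t ≤ √lam * R → J n t ≠ 0)
    (h : Sol Ω lam c u G) (hu0 : ¬ (u =ᵐ[volume.restrict Ω] 0)) :
    ∃ (p : ℂ) (r : ℝ), 0 < r ∧ Ω = ball p r ∧ J 1 (√lam * r) = 0 := by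
  obtain ⟨p, r, h1, _, _, h4, h5⟩ := Pool.Agent.TH298.AN.annular_main
    Pool.Agent.TH298.AN.pars2 Pool.Agent.TH298.AN.mode
    (Pool.Agent.TH298.AN.mode0 Pool.Agent.TH298.AN.mode)
    (Pool.Agent.TH298.AN.mode1 Pool.Agent.TH298.AN.mode) Pool.Agent.TH298.AN.odem
    ho hb hne hco hint hfr hlam ha hin hR hJ h hu0
  exact ⟨p, r, h1, h4, h5⟩

theorem exists_win (hW : S_WIN) (hN : S_NON) (hB : Bouj) (t0 : ℝ) (h0 : 0 < t0) :
    ∃ η : ℝ, 0 < η ∧ Win t0 η := by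
  by_cases hJ : J 1 t0 = 0
  · obtain ⟨η, h1, _, h3⟩ := hW t0 h0 (hB t0 h0 hJ)
    refine ⟨η, h1, ?_⟩
    intro Ω lam c a b q u G ho hb hne hco hint hfr hlam ha hin hout hs hs' h hu0
    refine main' ho hb hne hco hint hfr hlam ha hin hout ?_ h hu0
    intro N hN2 t _ ht1 ht2
    apply h3 N hN2 t
    rw [abs_le]
    constructor <;> linarith
  · obtain ⟨η, h1, _, h3⟩ := hN t0 h0 hJ
    refine ⟨η, h1, ?_⟩
    intro Ω lam c a b q u G ho hb _ _ _ _ hlam _ hin hout hs hs' h hu0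
    exact (h3 Ω lam c a b q u G ho hb hlam h hu0 hin hout hs hs').elim

/-- LRF. -/
theorem lrf : S_LRF := by
  intro hW hS hN hB T hT
  have hex : ∀ t0 : Set.Icc (1 / 2 : ℝ) T, ∃ η : ℝ, 0 < η ∧ Win t0 η := by
    intro t0
    have h1 := t0.2.1
    exact exists_win hW hN hB t0 (by linarith)
  choose η hη hwin using hex
  obtain ⟨δ, hδ, hcov⟩ := lebesgue_number_lemma_of_metric
    (s := Set.Icc (1 / 2 : ℝ) T)
    (c := fun t0 : Set.Icc (1 / 2 : ℝ) T => Set.Ioo ((t0 : ℝ) - η t0) ((t0 : ℝ) + η t0))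
    isCompact_Icc (fun _ => isOpen_Ioo) (by
      intro x hx
      rw [Set.mem_iUnion]
      have := hη ⟨x, hx⟩
      exact ⟨⟨x, hx⟩, by simp only [Set.mem_Ioo]; constructor <;> linarith⟩)
  set ε : ℝ := min (1 / 2) (δ / (2 * T)) with hε
  have hε0 : 0 < ε := lt_min (by norm_num) (by positivity)
  have hε1 : ε ≤ 1 / 2 := min_le_left _ _
  have hε2 : ε ≤ δ / (2 * T) := min_le_right _ _
  refine ⟨ε, hε0, by linarith, ?_⟩
  intro Ω lam c r q u G ho hb hne hco hint hfr hlam hr hrT hin hout h hu0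
  have hk : 0 < √lam := Real.sqrt_pos.mpr hlam
  set t : ℝ := √lam * r with ht
  have ht0 : 0 < t := mul_pos hk hr
  have ha0 : 0 ≤ (1 - ε) * r := mul_nonneg (by linarith) hr.le
  have ea : √lam * ((1 - ε) * r) = t - ε * t := by
    rw [ht]
    ring
  have eb : √lam * ((1 + ε) * r) = t + ε * t := by
    rw [ht]
    ring
  rcases lt_or_ge t (1 / 2) with hlt | hge
  · refine main' ho hb hne hco hint hfr hlam ha0 hin hout ?_ h hu0
    intro N hN2 t' ht'0 _ ht'2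
    apply hS N hN2 t' ht'0
    rw [eb] at ht'2
    nlinarith
  · obtain ⟨t0, hsub⟩ := hcov t ⟨hge, hrT⟩
    have hεt : ε * t ≤ δ / 2 := by
      calc ε * t ≤ δ / (2 * T) * T := mul_le_mul hε2 hrT ht0.le (by positivity)
        _ = δ / 2 := by
          field_simp
    have hεt0 : 0 < ε * t := mul_pos hε0 ht0
    have m1 : t - ε * t ∈ ball t δ := by
      rw [mem_ball, Real.dist_eq, show t - ε * t - t = -(ε * t) by ring, abs_neg,
        abs_of_pos hεt0]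
      linarith
    have m2 : t + ε * t ∈ ball t δ := by
      rw [mem_ball, Real.dist_eq, show t + ε * t - t = ε * t by ring, abs_of_pos hεt0]
      linarith
    have n1 := hsub m1
    have n2 := hsub m2
    refine hwin t0 Ω lam c ((1 - ε) * r) ((1 + ε) * r) q u G ho hb hne hco hint hfr hlam ha0 hin
      hout ?_ ?_ h hu0
    · rw [ea]
      exact n1.1.le
    · rw [eb]
      exact n2.2.le

end Pool.Agent.Y473.LR
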