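import Pool.Agent.Y245.LR.Stm

/-!
# Project LR: no Schiffer domain close to a disc which is not a Schiffer domain (S_NON)
-/

set_option autoImplicit false

open MeasureTheory Metric Set
open Pool.Agent.TH298.Sch (Sol)
open TH259.NS (J B B_cont B_deriv B_ode J_eq)
open Pool.Agent.Y245.SG (Bn)

namespace Pool.Agent.Y473.LR

open Pool.Agent.Y245.LR

/-- The integral of the radial Bessel function over a disc. -/
theorem int_disc {lam r : ℝ} (hr : 0 < r) :
    ∫ x in ball (0 : ℂ) r, B 0 (lam * ‖x‖ ^ 2 / 4) = Real.pi * r ^ 2 * B 1 (lam * r ^ 2 / 4) := by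
  have h1 : ∫ x in ball (0 : ℂ) r, B 0 (lam * ‖x‖ ^ 2 / 4) =
      ∫ x : ℂ, (fun t : ℝ => (Iio r).indicator (fun t => B 0 (lam * t ^ 2 / 4)) t) ‖x‖ := by
    rw [← integral_indicator measurableSet_ball]
    refine integral_congr_ae (Filter.Eventually.of_forall fun x => ?_)
    simp only []
    by_cases hx : ‖x‖ < r
    · rw [indicator_of_mem (by rwa [mem_ball_zero_iff]), indicator_of_mem (by exact hx)]
    · rw [indicator_of_notMem (by rwa [mem_ball_zero_iff]), indicator_of_notMem (by exact hx)]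
  rw [h1, integral_fun_norm_addHaar, Complex.finrank_real_complex]
  have h2 : (volume : Measure ℂ).real (ball 0 1) = Real.pi := by
    rw [measureReal_def, Complex.volume_ball]
    simp
  have h3 : ∫ y in Ioi (0 : ℝ), y * (Iio r).indicator (fun t => B 0 (lam * t ^ 2 / 4)) y =
      ∫ y in (0 : ℝ)..r, y * B 0 (lam * y ^ 2 / 4) := by
    rw [intervalIntegral.integral_of_le hr.le, integral_Ioc_eq_integral_Ioo,
      ← integral_indicator measurableSet_Ioi, ← integral_indicator measurableSet_Ioo]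
    refine integral_congr_ae (Filter.Eventually.of_forall fun y => ?_)
    by_cases h4 : 0 < y
    · by_cases h5 : y < r
      · rw [indicator_of_mem (by exact h4), indicator_of_mem (by exact h5),
          indicator_of_mem (show y ∈ Ioo 0 r from ⟨h4, h5⟩)]
      · rw [indicator_of_mem (by exact h4), indicator_of_notMem (by exact h5),
          indicator_of_notMem (show y ∉ Ioo 0 r from fun h => h5 h.2), mul_zero]
    · rw [indicator_of_notMem (by exact h4),
        indicator_of_notMem (show y ∉ Ioo 0 r from fun h => h4 h.1)]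
  have hd : ∀ y ∈ uIcc (0 : ℝ) r, HasDerivAt (fun y => y ^ 2 / 2 * B 1 (lam * y ^ 2 / 4))
      (y * B 0 (lam * y ^ 2 / 4)) y := by
    intro y _
    have k1 : HasDerivAt (fun y : ℝ => lam * y ^ 2 / 4) (lam * (2 * y) / 4) y := by
      have := ((hasDerivAt_pow 2 y).const_mul lam).div_const 4
      simpa using this
    have k2 := (B_deriv 1 (lam * y ^ 2 / 4)).comp y k1
    have k3 : HasDerivAt (fun y : ℝ => y ^ 2 / 2) y y := by
      have := (hasDerivAt_pow 2 y).div_const 2
      refine this.congr_deriv ?_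
      simp
    refine (k3.mul k2).congr_deriv ?_
    have h6 := B_ode 0 (lam * y ^ 2 / 4)
    simp only [Nat.cast_zero, zero_add, one_mul] at h6
    have h7 : B 0 (lam * y ^ 2 / 4) = B 1 (lam * y ^ 2 / 4) -
        lam * y ^ 2 / 4 * B 2 (lam * y ^ 2 / 4) := by linarith
    rw [h7]
    simp only [Function.comp]
    ring
  have hcont : Continuous fun y : ℝ => y * B 0 (lam * y ^ 2 / 4) :=
    continuous_id.mul ((B_cont 0).comp (by fun_prop))
  rw [h2]
  simp only [nsmul_eq_mul, smul_eq_mul, Nat.cast_ofNat, Nat.add_one_sub_one, pow_one]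
  rw [h3, intervalIntegral.integral_eq_sub_of_hasDerivAt hd (hcont.intervalIntegrable 0 r)]
  ring

theorem area_closedBall {b : ℝ} (hb : 0 ≤ b) :
    (volume : Measure ℂ).real (closedBall (0 : ℂ) b) = Real.pi * b ^ 2 := by
  rw [measureReal_def, Complex.volume_closedBall, ENNReal.toReal_mul, ENNReal.toReal_pow,
    ENNReal.toReal_ofReal hb]
  simp
  ring

theorem area_ball {b : ℝ} (hb : 0 ≤ b) :
    (volume : Measure ℂ).real (ball (0 : ℂ) b) = Real.pi * b ^ 2 := by
  rw [measureReal_def, Complex.volume_ball, ENNReal.toReal_mul, ENNReal.toReal_pow,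
    ENNReal.toReal_ofReal hb]
  simp
  ring

/-- The comparison of the disc with the rest of the domain. -/
theorem compare {Ω : Set ℂ} {lam c a b : ℝ} {u : ℂ → ℝ} {G : ℂ → ℂ} (hm : MeasurableSet Ω)
    (hlam : 0 < lam) (hc : c ≠ 0) (h : Sol Ω lam c u G) (ha : 0 < a) (hab : a ≤ b)
    (hin : ball 0 a ⊆ Ω) (hout : Ω ⊆ closedBall 0 b) :
    a ^ 2 * |B 1 (lam * a ^ 2 / 4)| ≤ Real.exp (lam * b ^ 2 / 4) * (b ^ 2 - a ^ 2) := by
  have hb0 : 0 ≤ b := ha.le.trans hab
  have hbd : Bornology.IsBounded Ω := isBounded_closedBall.subset hout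
  have h0 := Pool.Agent.TH298.AN.int_J0 hbd hm h hlam hc
  have hcont : Continuous fun x : ℂ => B 0 (lam * ‖x‖ ^ 2 / 4) :=
    (B_cont 0).comp (by fun_prop)
  have hint : IntegrableOn (fun x : ℂ => B 0 (lam * ‖x‖ ^ 2 / 4)) Ω :=
    (hcont.continuousOn.integrableOn_compact (isCompact_closedBall (0 : ℂ) b)).mono_set hout
  have hsplit : ∫ x in Ω, B 0 (lam * ‖x‖ ^ 2 / 4) =
      (∫ x in ball (0 : ℂ) a, B 0 (lam * ‖x‖ ^ 2 / 4)) +
        ∫ x in Ω \ ball (0 : ℂ) a, B 0 (lam * ‖x‖ ^ 2 / 4) := by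
    rw [← setIntegral_union disjoint_sdiff_right (hm.diff measurableSet_ball)
      (hint.mono_set hin) (hint.mono_set sdiff_subset), union_sdiff_cancel hin]
  rw [hsplit, int_disc ha] at h0
  have hbound : ‖∫ x in Ω \ ball (0 : ℂ) a, B 0 (lam * ‖x‖ ^ 2 / 4)‖ ≤
      Real.exp (lam * b ^ 2 / 4) * (volume : Measure ℂ).real (Ω \ ball (0 : ℂ) a) := by
    apply norm_setIntegral_le_of_norm_le_const
    · exact lt_of_le_of_lt (measure_mono sdiff_subset) hbd.measure_lt_top
    · intro x hx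
      have hxb : ‖x‖ ≤ b := by
        have := hout hx.1
        rwa [mem_closedBall_zero_iff] at this
      have h1 : 0 ≤ lam * ‖x‖ ^ 2 / 4 := by positivity
      have h2 := Pool.Agent.TH298.AN.B_abs 0 h1
      rw [Real.norm_eq_abs]
      refine h2.trans ?_
      rw [Nat.factorial_zero, Nat.cast_one, div_one]
      apply Real.exp_le_exp.mpr
      have h3 : ‖x‖ ^ 2 ≤ b ^ 2 := pow_le_pow_left₀ (norm_nonneg x) hxb 2
      have h4 := mul_le_mul_of_nonneg_left h3 hlam.le
      linarith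
  have harea : (volume : Measure ℂ).real (Ω \ ball (0 : ℂ) a) ≤ Real.pi * (b ^ 2 - a ^ 2) := by
    have h1 : (volume : Measure ℂ).real (Ω \ ball (0 : ℂ) a) ≤
        (volume : Measure ℂ).real (closedBall (0 : ℂ) b \ ball (0 : ℂ) a) := by
      exact measureReal_mono (sdiff_subset_sdiff_left hout)
        (lt_of_le_of_lt (measure_mono sdiff_subset) isBounded_closedBall.measure_lt_top).ne
    have h2 : (volume : Measure ℂ).real (closedBall (0 : ℂ) b \ ball (0 : ℂ) a) =
        (volume : Measure ℂ).real (closedBall (0 : ℂ) b) -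
          (volume : Measure ℂ).real (ball (0 : ℂ) a) :=
      measureReal_sdiff (ball_subset_closedBall.trans (closedBall_subset_closedBall hab))
        measurableSet_ball isBounded_closedBall.measure_lt_top.ne
    rw [h2, area_closedBall hb0, area_ball ha.le] at h1
    linarith
  have h5 : ∫ x in Ω \ ball (0 : ℂ) a, B 0 (lam * ‖x‖ ^ 2 / 4) =
      -(Real.pi * a ^ 2 * B 1 (lam * a ^ 2 / 4)) := by linarith
  rw [h5, norm_neg, Real.norm_eq_abs, abs_mul, abs_of_pos (by positivity)] at hbound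
  have h6 := hbound.trans (mul_le_mul_of_nonneg_left harea (Real.exp_pos _).le)
  have hpi := Real.pi_pos
  have h7 : Real.pi * (a ^ 2 * |B 1 (lam * a ^ 2 / 4)|) ≤
      Real.pi * (Real.exp (lam * b ^ 2 / 4) * (b ^ 2 - a ^ 2)) := by linarith
  exact le_of_mul_le_mul_left h7 hpi

/-- NON. -/
theorem non : S_NON := by
  intro t0 h0 hJ
  have hB1 : B 1 (t0 ^ 2 / 4) ≠ 0 := by
    intro h
    apply hJ
    rw [J_eq, h, mul_zero]
  set v : ℝ := t0 ^ 2 * |B 1 (t0 ^ 2 / 4)| with hv
  have hv0 : 0 < v := by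
    have := abs_pos.mpr hB1
    positivity
  have hcont : Continuous fun s : ℝ => s ^ 2 * |B 1 (s ^ 2 / 4)| :=
    (continuous_pow 2).mul ((B_cont 1).comp (by fun_prop)).abs
  obtain ⟨δ, hδ, hδ2⟩ := Metric.continuous_iff.mp hcont t0 (v / 2) (by positivity)
  set M : ℝ := Real.exp (t0 ^ 2) with hM
  have hM0 : 0 < M := Real.exp_pos _
  set η : ℝ := min (δ / 2) (min (t0 / 2) (v / (16 * M * t0))) with hη
  have hη0 : 0 < η := lt_min (by positivity) (lt_min (by positivity) (by positivity))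
  have e1 : η ≤ δ / 2 := min_le_left _ _
  have e2 : η ≤ t0 / 2 := (min_le_right _ _).trans (min_le_left _ _)
  have e3 : η ≤ v / (16 * M * t0) := (min_le_right _ _).trans (min_le_right _ _)
  refine ⟨η, hη0, by linarith, ?_⟩
  intro Ω lam c a b q u G ho hbd hlam h hu0 hin hout hs hs'
  have hk : 0 < √lam := Real.sqrt_pos.mpr hlam
  have ha : 0 < a := by
    by_contra hcon
    push Not at hcon
    have : √lam * a ≤ 0 := mul_nonpos_of_nonneg_of_nonpos hk.le hcon
    linarith
  have hqΩ : q ∈ Ω := hin (mem_ball_self ha)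
  have hb0 : 0 ≤ b := by
    have := hout hqΩ
    rw [mem_closedBall, dist_self] at this
    exact this
  have hab : a ≤ b := Pool.Agent.TH298.AN.ball_le hb0 (hin.trans hout)
  have hc := h.c_ne hbd ho.measurableSet hlam hu0
  have h1 := Pool.Agent.TH298.GB.trans_sol h ho.measurableSet q
  have hmeas : MeasurableSet ((fun x : ℂ => x + q) ⁻¹' Ω) :=
    (continuous_id.add continuous_const).measurable ho.measurableSet
  have hin' : ball (0 : ℂ) a ⊆ (fun x : ℂ => x + q) ⁻¹' Ω := by
    intro x hx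
    rw [mem_ball_zero_iff] at hx
    apply hin
    rw [mem_ball_iff_norm, add_sub_cancel_right]
    exact hx
  have hout' : (fun x : ℂ => x + q) ⁻¹' Ω ⊆ closedBall 0 b := by
    intro x hx
    have := hout hx
    rw [mem_closedBall_iff_norm, add_sub_cancel_right] at this
    rwa [mem_closedBall_zero_iff]
  have h2 := compare hmeas hlam hc h1 ha hab hin' hout'
  have hsq : √lam * √lam = lam := Real.mul_self_sqrt hlam.le
  set s : ℝ := √lam * a with hsd
  set s' : ℝ := √lam * b with hsd'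
  have f1 : lam * a ^ 2 = s ^ 2 := by
    rw [hsd, mul_pow, pow_two (√lam), hsq]
  have f2 : lam * b ^ 2 = s' ^ 2 := by
    rw [hsd', mul_pow, pow_two (√lam), hsq]
  have hss : s ≤ s' := mul_le_mul_of_nonneg_left hab hk.le
  rw [f1, f2] at h2
  have h3 : s ^ 2 * |B 1 (s ^ 2 / 4)| ≤ Real.exp (s' ^ 2 / 4) * (s' ^ 2 - s ^ 2) := by
    have := mul_le_mul_of_nonneg_left h2 hlam.le
    calc s ^ 2 * |B 1 (s ^ 2 / 4)| = lam * (a ^ 2 * |B 1 (s ^ 2 / 4)|) := by rw [← f1]; ring
      _ ≤ lam * (Real.exp (s' ^ 2 / 4) * (b ^ 2 - a ^ 2)) := this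
      _ = Real.exp (s' ^ 2 / 4) * (lam * b ^ 2 - lam * a ^ 2) := by ring
      _ = _ := by rw [f1, f2]
  have hs0 : 0 < s := by linarith
  have hdist : dist s t0 < δ := by
    rw [Real.dist_eq, abs_lt]
    constructor <;> linarith
  have h4 := hδ2 s hdist
  rw [Real.dist_eq, abs_lt] at h4
  have h5 : v / 2 < s ^ 2 * |B 1 (s ^ 2 / 4)| := by linarith [h4.1]
  have h6 : Real.exp (s' ^ 2 / 4) ≤ M := by
    apply Real.exp_le_exp.mpr
    have : s' ≤ 2 * t0 := by linarith
    nlinarith
  have h7 : s' ^ 2 - s ^ 2 ≤ 8 * t0 * η := by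
    have g1 : s' - s ≤ 2 * η := by linarith
    have g2 : s' + s ≤ 4 * t0 := by linarith
    have g3 : 0 ≤ s' - s := by linarith
    have g4 : 0 ≤ s' + s := by linarith
    nlinarith
  have h8 : 0 ≤ s' ^ 2 - s ^ 2 := by nlinarith
  have h9 : Real.exp (s' ^ 2 / 4) * (s' ^ 2 - s ^ 2) ≤ M * (8 * t0 * η) :=
    mul_le_mul h6 h7 h8 hM0.le
  have h10 : M * (8 * t0 * η) ≤ v / 2 := by
    have : η * (16 * M * t0) ≤ v := by
      rw [le_div_iff₀ (by positivity)] at e3
      exact e3
    linarith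
  linarith

end Pool.Agent.Y473.LR
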